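import Mathlib
import Pool.Agent.H476RA.TaskA

set_option autoImplicit false

/-! Words which define a group law on all free nilpotent groups: auxiliary results. -/

namespace Pool.Agent.V8H69.Words

open Pool.Agent.H476RA.FR
open scoped commutatorElement

/-! ### Free groups are residually nilpotent -/

theorem K_comm_gen {i j : ℕ} {u v : Rˣ} (hu : u ∈ K i) (hv : v ∈ K j) : ⁅u, v⁆ ∈ K (i + j) := by
  have key : ∀ (i j : ℕ) (u v : Rˣ), u ∈ K i → v ∈ K j →
      ((⁅u, v⁆ : Rˣ) : R) - 1 ∈ J (i + j) := by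
    intro i j u v hu hv
    have h0 : ∀ (i : ℕ) (w : Rˣ), w ∈ K i → (w : R) ∈ J 0 := by
      intro i w hw
      have : (w : R) = ((w : R) - 1) + 1 := by noncomm_ring
      rw [this]
      exact J_add (J_mono (Nat.zero_le i) hw.1) J_one
    have h1 : ((⁅u, v⁆ : Rˣ) : R) - 1 =
        (((u : R) - 1) * ((v : R) - 1) - ((v : R) - 1) * ((u : R) - 1)) *
          (((u⁻¹ : Rˣ) : R) * ((v⁻¹ : Rˣ) : R)) := by
      have h2 : (((u : R) - 1) * ((v : R) - 1) - ((v : R) - 1) * ((u : R) - 1)) =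
          (u : R) * (v : R) - (v : R) * (u : R) := by noncomm_ring
      rw [h2, sub_mul]
      have h3 : (v : R) * (u : R) * (((u⁻¹ : Rˣ) : R) * ((v⁻¹ : Rˣ) : R)) = 1 := by
        rw [← Units.val_mul, ← Units.val_mul, ← Units.val_mul, ← mul_inv_rev, mul_inv_cancel,
          Units.val_one]
      rw [h3, commutatorElement_def]
      simp only [Units.val_mul, mul_assoc]
    rw [h1]
    have h4 : (((u⁻¹ : Rˣ) : R) * ((v⁻¹ : Rˣ) : R)) ∈ J 0 :=
      J_mul (i := 0) (j := 0) (h0 _ _ ((K i).inv_mem hu)) (h0 _ _ ((K j).inv_mem hv))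
    refine J_mul (i := i + j) (j := 0) (J_sub (J_mul hu.1 hv.1) ?_) h4
    rw [add_comm]
    exact J_mul hv.1 hu.1
  refine ⟨key i j u v hu hv, ?_⟩
  rw [commutatorElement_inv, add_comm]
  exact key j i v u hv hu

theorem lcs_le {G : Type} [Group G] (φ : G →* Rˣ) (h : ∀ g, φ g ∈ K 1) (l : ℕ) :
    (⊤ : Subgroup G).lowerCentralSeries l ≤ (K (l + 1)).comap φ := by
  induction l with
  | zero => intro g _; exact h g
  | succ l ih =>
    rw [Subgroup.lowerCentralSeries_succ, Subgroup.commutator_le]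
    intro g₁ h₁ g₂ _
    show φ ⁅g₁, g₂⁆ ∈ K (l + 1 + 1)
    rw [map_commutatorElement]
    exact K_comm_gen (ih h₁) (h g₂)

/-- free groups are residually nilpotent -/
theorem free_resid_nil (Y : Type) (w : FreeGroup Y)
    (hw : ∀ l, w ∈ (⊤ : Subgroup (FreeGroup Y)).lowerCentralSeries l) : w = 1 := by
  by_contra hw1
  obtain ⟨L, hL, h0, hpr⟩ := exists_syll w
  have hlen : 0 < L.length := by
    rcases Nat.eq_zero_or_pos L.length with h | h
    · exfalso
      apply hw1
      rw [← hpr, List.length_eq_zero_iff.mp h]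
      simp [pr]
    · exact h
  have hf := lab_sep L hL
  have hmem := hw L.length
  have h1 := (lcs_le (rep hf) (rep_mem hf) L.length hmem).1
  have h2 := h1 (Pi.single 0 1) L.length (fun q hq => by omega)
  have h3 : ((rep hf w : Rˣ) : R) (Pi.single 0 1) L.length - (Pi.single 0 1 : ℕ → ℤ) L.length = 0 := h2
  rw [Pi.single_eq_of_ne (by omega : L.length ≠ 0), sub_zero] at h3
  have h4 := (rep_eval L (lab L) hf (fun p _ _ => rfl)).2
  rw [hpr] at h4
  rw [h4] at h3
  have h5 : ∀ s ∈ L.map Prod.snd, s ≠ 0 := by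
    intro s hs
    obtain ⟨t, ht, rfl⟩ := List.mem_map.1 hs
    exact h0 t ht
  exact List.prod_ne_zero (fun h => h5 0 h rfl) h3

end Pool.Agent.V8H69.Words
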