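import Mathlib
import Pool.Agent.V8H69.Words

set_option autoImplicit false

/-! Words which define an associative operation on free groups. -/

namespace Pool.Agent.V8H69.Words

open Pool.Agent.H476RA.FR
open FreeGroup

variable {X : Type} [DecidableEq X]

/-- number of occurrences of the generator `c` (or its inverse) in the reduced word of `g` -/
def cnt (c : X) (g : FreeGroup X) : ℕ := g.toWord.countP (fun l => decide (l.1 = c))

theorem countP_invRev (c : X) (L : List (X × Bool)) :
    (invRev L).countP (fun l => decide (l.1 = c)) = L.countP (fun l => decide (l.1 = c)) := by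
  unfold invRev
  rw [List.countP_reverse, List.countP_map]
  rfl

theorem cnt_inv (c : X) (g : FreeGroup X) : cnt c g⁻¹ = cnt c g := by
  unfold cnt
  rw [toWord_inv, countP_invRev]

theorem cnt_pow (c : X) (g : FreeGroup X) (n : ℕ) (hn : n ≠ 0) : cnt c g ≤ cnt c (g ^ n) := by
  unfold cnt
  rw [toWord_pow, reduceCyclically.reduce_flatten_replicate isReduced_toWord, if_neg hn]
  conv_lhs => rw [← reduceCyclically.conj_conjugator_reduceCyclically g.toWord]
  simp only [List.countP_append]
  obtain ⟨m, rfl⟩ := Nat.exists_eq_add_one_of_ne_zero hn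
  rw [List.replicate_succ, List.flatten_cons, List.countP_append]
  omega

theorem cnt_zpow (c : X) (g : FreeGroup X) (n : ℤ) (hn : n ≠ 0) : cnt c g ≤ cnt c (g ^ n) := by
  obtain ⟨m, rfl | rfl⟩ := n.eq_nat_or_neg
  · rw [zpow_natCast]
    exact cnt_pow c g m (by simpa using hn)
  · rw [zpow_neg, zpow_natCast, cnt_inv]
    exact cnt_pow c g m (by simpa using hn)

theorem mem_toWord_map {Y : Type} [DecidableEq Y] (f : Y → X) (g : FreeGroup Y) :
    ∀ l ∈ (FreeGroup.map f g).toWord, ∃ y, l.1 = f y := by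
  intro l hl
  have h1 : (FreeGroup.map f g).toWord =
      reduce (g.toWord.map fun x => (f x.1, x.2)) := by
    conv_lhs => rw [← mk_toWord (x := g)]
    rw [FreeGroup.map.mk, toWord_mk]
  rw [h1] at hl
  have h2 := (Red.sublist (reduce.red (L := g.toWord.map fun x => (f x.1, x.2)))).subset hl
  obtain ⟨x, _, rfl⟩ := List.mem_map.1 h2
  exact ⟨x.1, rfl⟩

/-- evaluation of a list of syllables -/
def ev {G : Type} [Group G] (z : Fin 2 → G) (L : List (Fin 2 × ℤ)) : G :=
  (L.map fun s => z s.1 ^ s.2).prod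

theorem lift_pr {G : Type} [Group G] (z : Fin 2 → G) (L : List (Fin 2 × ℤ)) :
    FreeGroup.lift z (pr L) = ev z L := by
  unfold pr ev
  rw [map_list_prod, List.map_map]
  congr 1
  apply List.map_congr_left
  intro s _
  simp

/-- no cancellation between blocks of different colours -/
theorem toWord_ev (z : Fin 2 → FreeGroup X) (col : X → Fin 2) (hz : ∀ k, z k ≠ 1)
    (hcol : ∀ k (n : ℤ), ∀ l ∈ ((z k) ^ n).toWord, col l.1 = k) (L : List (Fin 2 × ℤ))
    (hL : L.IsChain (fun a b => a.1 ≠ b.1)) (h0 : ∀ s ∈ L, s.2 ≠ 0) :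
    (ev z L).toWord = (L.map fun s => (z s.1 ^ s.2).toWord).flatten := by
  induction L with
  | nil => simp [ev]
  | cons s L ih =>
    have ih' := ih (by
      cases L with
      | nil => exact List.isChain_nil
      | cons t L => exact (List.isChain_cons_cons.1 hL).2) (fun t ht => h0 t (List.mem_cons_of_mem _ ht))
    have e1 : ev z (s :: L) = z s.1 ^ s.2 * ev z L := by simp [ev]
    rw [e1, toWord_mul, ih', List.map_cons, List.flatten_cons]
    rw [← isReduced_iff_reduce_eq]
    unfold FreeGroup.IsReduced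
    rw [List.isChain_append]
    refine ⟨isReduced_toWord, ?_, ?_⟩
    · rw [← ih']; exact isReduced_toWord
    · intro x hx y hy hxy
      exfalso
      have hx' : col x.1 = s.1 := hcol s.1 s.2 x (List.mem_of_getLast? hx)
      cases L with
      | nil => simp at hy
      | cons t L =>
        have hne : ((z t.1) ^ t.2).toWord ≠ [] := by
          rw [Ne, toWord_eq_nil_iff]
          intro h
          have h1 := h0 t (by simp)
          exact hz t.1 ((IsMulTorsionFree.zpow_eq_one_iff.1 h).resolve_right h1)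
        rw [List.map_cons, List.flatten_cons, List.head?_append_of_ne_nil _ hne] at hy
        have hy' : col y.1 = t.1 := hcol t.1 t.2 y (List.mem_of_head? hy)
        exact (List.isChain_cons_cons.1 hL).1 (by rw [← hx', ← hy', hxy])

theorem cnt_ev (z : Fin 2 → FreeGroup X) (col : X → Fin 2) (hz : ∀ k, z k ≠ 1)
    (hcol : ∀ k (n : ℤ), ∀ l ∈ ((z k) ^ n).toWord, col l.1 = k) (L : List (Fin 2 × ℤ))
    (hL : L.IsChain (fun a b => a.1 ≠ b.1)) (h0 : ∀ s ∈ L, s.2 ≠ 0) (c : X) :
    cnt c (ev z L) = (L.map fun s => cnt c (z s.1 ^ s.2)).sum := by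
  unfold cnt
  rw [toWord_ev z col hz hcol L hL h0, List.countP_flatten, List.map_map]
  rfl

theorem cnt_zero {g : FreeGroup X} {c : X} (h : ∀ l ∈ g.toWord, l.1 ≠ c) : cnt c g = 0 := by
  unfold cnt
  rw [List.countP_eq_zero]
  intro l hl
  simpa using h l hl

theorem cnt_of_zpow (c : X) (n : ℤ) : cnt c (FreeGroup.of c ^ n) = n.natAbs := by
  have h : ∀ m : ℕ, cnt c (FreeGroup.of c ^ m) = m := by
    intro m
    unfold cnt
    rw [toWord_of_pow, List.countP_replicate]
    simp
  obtain ⟨m, rfl | rfl⟩ := n.eq_nat_or_neg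
  · rw [zpow_natCast, h]; simp
  · rw [zpow_neg, zpow_natCast, cnt_inv, h]; simp

/-- total exponent of the letter `k` -/
def S (k : Fin 2) (L : List (Fin 2 × ℤ)) : ℕ :=
  (L.map fun s => if s.1 = k then s.2.natAbs else 0).sum

/-- number of syllables with letter `k` -/
def σ (k : Fin 2) (L : List (Fin 2 × ℤ)) : ℕ := (L.map fun s => if s.1 = k then 1 else 0).sum

theorem hcol_map {Y : Type} [DecidableEq Y] (f : Y → X) (col : X → Fin 2) (k : Fin 2)
    (h : ∀ y, col (f y) = k) (g : FreeGroup Y) (n : ℤ) :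
    ∀ l ∈ ((FreeGroup.map f g) ^ n).toWord, col l.1 = k := by
  intro l hl
  rw [← map_zpow] at hl
  obtain ⟨y, hy⟩ := mem_toWord_map f _ l hl
  rw [hy, h]

theorem hcol_of (c : X) (col : X → Fin 2) (k : Fin 2) (h : col c = k) (n : ℤ) :
    ∀ l ∈ ((FreeGroup.of c) ^ n).toWord, col l.1 = k := by
  have := hcol_map (fun _ : Unit => c) col k (fun _ => h) (FreeGroup.of ()) n
  simpa using this


theorem sum_le_aux (k : Fin 2) (m : ℕ) (f : Fin 2 × ℤ → ℕ) (L : List (Fin 2 × ℤ))
    (h : ∀ s ∈ L, s.1 = k → m ≤ f s) : σ k L * m ≤ (L.map f).sum := by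
  induction L with
  | nil => simp [σ]
  | cons s L ih =>
    have ih' := ih (fun t ht => h t (List.mem_cons_of_mem _ ht))
    have e1 : σ k (s :: L) = (if s.1 = k then 1 else 0) + σ k L := by simp [σ]
    rw [e1, List.map_cons, List.sum_cons, add_mul]
    by_cases hs : s.1 = k
    · rw [if_pos hs, one_mul]
      exact add_le_add (h s (by simp) hs) ih'
    · rw [if_neg hs, zero_mul, zero_add]
      omega

theorem sum_eq_S (k : Fin 2) (f : Fin 2 × ℤ → ℕ) (L : List (Fin 2 × ℤ))
    (h1 : ∀ s ∈ L, s.1 = k → f s = s.2.natAbs) (h2 : ∀ s ∈ L, s.1 ≠ k → f s = 0) :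
    (L.map f).sum = S k L := by
  unfold S
  congr 1
  apply List.map_congr_left
  intro s hs
  by_cases h : s.1 = k
  · rw [if_pos h, h1 s hs h]
  · rw [if_neg h, h2 s hs h]

theorem σ_le_S (k : Fin 2) (L : List (Fin 2 × ℤ)) (h0 : ∀ s ∈ L, s.2 ≠ 0) : σ k L ≤ S k L := by
  have := sum_le_aux k 1 (fun s => if s.1 = k then s.2.natAbs else 0) L (by
    intro s hs h
    simp only [if_pos h]
    have := h0 s hs
    omega)
  simpa [S] using this

omit [DecidableEq X] in
theorem lift_eq_map (f : Fin 2 → X) (w : FreeGroup (Fin 2)) :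
    FreeGroup.lift (fun i => FreeGroup.of (f i)) w = FreeGroup.map f w := by
  rw [FreeGroup.map_eq_lift]
  rfl

/-- The number of syllables of an associative word. -/
theorem key (w : FreeGroup (Fin 2)) (hw1 : w ≠ 1) (L : List (Fin 2 × ℤ))
    (hL : L.IsChain (fun a b => a.1 ≠ b.1)) (h0 : ∀ s ∈ L, s.2 ≠ 0) (hpr : pr L = w)
    (hassoc : FreeGroup.lift ![FreeGroup.lift ![(FreeGroup.of 0 : FreeGroup (Fin 3)),
        FreeGroup.of 1] w, FreeGroup.of 2] w =
      FreeGroup.lift ![FreeGroup.of 0, FreeGroup.lift ![FreeGroup.of 1, FreeGroup.of 2] w] w) :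
    σ 0 L ≤ 1 ∧ σ 1 L ≤ 1 := by
  have hu : FreeGroup.lift ![(FreeGroup.of 0 : FreeGroup (Fin 3)), FreeGroup.of 1] w =
      FreeGroup.map ![0, 1] w := by
    rw [← lift_eq_map]
    congr 2
    funext i
    fin_cases i <;> rfl
  have hv : FreeGroup.lift ![(FreeGroup.of 1 : FreeGroup (Fin 3)), FreeGroup.of 2] w =
      FreeGroup.map ![1, 2] w := by
    rw [← lift_eq_map]
    congr 2
    funext i
    fin_cases i <;> rfl
  set u := FreeGroup.lift ![(FreeGroup.of 0 : FreeGroup (Fin 3)), FreeGroup.of 1] w with hudef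
  set v := FreeGroup.lift ![(FreeGroup.of 1 : FreeGroup (Fin 3)), FreeGroup.of 2] w with hvdef
  have hu1 : u ≠ 1 := by
    intro h
    apply hw1
    have h2 : Function.Injective (FreeGroup.map (![0, 1] : Fin 2 → Fin 3)) :=
      FreeGroup.map_injective (by decide)
    apply h2
    rw [← hu, h, _root_.map_one]
  have hv1 : v ≠ 1 := by
    intro h
    apply hw1
    have h2 : Function.Injective (FreeGroup.map (![1, 2] : Fin 2 → Fin 3)) :=
      FreeGroup.map_injective (by decide)
    apply h2
    rw [← hv, h, _root_.map_one]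
  -- the four evaluations
  have col1 : ∀ k : Fin 2, ∀ n : ℤ, ∀ l ∈ ((![u, FreeGroup.of 2] k) ^ n).toWord,
      (![0, 0, 1] : Fin 3 → Fin 2) l.1 = k := by
    intro k n
    fin_cases k
    · show ∀ l ∈ (u ^ n).toWord, (![0, 0, 1] : Fin 3 → Fin 2) l.1 = 0
      rw [hu]
      exact hcol_map _ _ _ (by decide) w n
    · exact hcol_of _ _ _ (by decide) n
  have col2 : ∀ k : Fin 2, ∀ n : ℤ, ∀ l ∈ ((![FreeGroup.of 0, v] k) ^ n).toWord,
      (![0, 1, 1] : Fin 3 → Fin 2) l.1 = k := by
    intro k n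
    fin_cases k
    · exact hcol_of _ _ _ (by decide) n
    · show ∀ l ∈ (v ^ n).toWord, (![0, 1, 1] : Fin 3 → Fin 2) l.1 = 1
      rw [hv]
      exact hcol_map _ _ _ (by decide) w n
  have col3 : ∀ k : Fin 2, ∀ n : ℤ, ∀ l ∈
      ((![(FreeGroup.of 0 : FreeGroup (Fin 3)), FreeGroup.of 1] k) ^ n).toWord,
      (![0, 1, 1] : Fin 3 → Fin 2) l.1 = k := by
    intro k n
    fin_cases k
    · exact hcol_of _ _ _ (by decide) n
    · exact hcol_of _ _ _ (by decide) n
  have col4 : ∀ k : Fin 2, ∀ n : ℤ, ∀ l ∈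
      ((![(FreeGroup.of 1 : FreeGroup (Fin 3)), FreeGroup.of 2] k) ^ n).toWord,
      (![0, 0, 1] : Fin 3 → Fin 2) l.1 = k := by
    intro k n
    fin_cases k
    · exact hcol_of _ _ _ (by decide) n
    · exact hcol_of _ _ _ (by decide) n
  have one1 : ∀ k : Fin 2, ![u, FreeGroup.of 2] k ≠ 1 := by
    intro k; fin_cases k
    · exact hu1
    · exact FreeGroup.of_ne_one _
  have one2 : ∀ k : Fin 2, ![FreeGroup.of 0, v] k ≠ 1 := by
    intro k; fin_cases k
    · exact FreeGroup.of_ne_one _
    · exact hv1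
  have one3 : ∀ k : Fin 2, ![(FreeGroup.of 0 : FreeGroup (Fin 3)), FreeGroup.of 1] k ≠ 1 := by
    intro k; fin_cases k <;> exact FreeGroup.of_ne_one _
  have one4 : ∀ k : Fin 2, ![(FreeGroup.of 1 : FreeGroup (Fin 3)), FreeGroup.of 2] k ≠ 1 := by
    intro k; fin_cases k <;> exact FreeGroup.of_ne_one _
  have e1 := fun c => cnt_ev ![u, FreeGroup.of 2] _ one1 col1 L hL h0 c
  have e2 := fun c => cnt_ev ![FreeGroup.of 0, v] _ one2 col2 L hL h0 c
  have e3 := fun c => cnt_ev ![(FreeGroup.of 0 : FreeGroup (Fin 3)), FreeGroup.of 1] _ one3 col3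
    L hL h0 c
  have e4 := fun c => cnt_ev ![(FreeGroup.of 1 : FreeGroup (Fin 3)), FreeGroup.of 2] _ one4 col4
    L hL h0 c
  rw [← lift_pr, hpr] at e1 e2 e3 e4
  have hcu : cnt 0 u = S 0 L := by
    rw [hudef, e3 0]
    apply sum_eq_S
    · intro s hs h
      rw [h]
      exact cnt_of_zpow _ _
    · intro s hs h
      have h' : s.1 = 1 := by omega
      rw [h']
      apply cnt_zero
      intro l hl hc
      have := col3 1 s.2 l hl
      rw [hc] at this
      exact absurd this (by decide)
  have hcv : cnt 2 v = S 1 L := by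
    rw [hvdef, e4 2]
    apply sum_eq_S
    · intro s hs h
      rw [h]
      exact cnt_of_zpow _ _
    · intro s hs h
      have h' : s.1 = 0 := by omega
      rw [h']
      apply cnt_zero
      intro l hl hc
      have := col4 0 s.2 l hl
      rw [hc] at this
      exact absurd this (by decide)
  have a1 : cnt 2 (FreeGroup.lift ![u, FreeGroup.of 2] w) = S 1 L := by
    rw [e1 2]
    apply sum_eq_S
    · intro s hs h
      rw [h]
      exact cnt_of_zpow _ _
    · intro s hs h
      have h' : s.1 = 0 := by omega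
      rw [h']
      apply cnt_zero
      intro l hl hc
      have := col1 0 s.2 l hl
      rw [hc] at this
      exact absurd this (by decide)
  have a2 : σ 1 L * cnt 2 v ≤ cnt 2 (FreeGroup.lift ![FreeGroup.of 0, v] w) := by
    rw [e2 2]
    apply sum_le_aux
    intro s hs h
    rw [h]
    exact cnt_zpow _ _ _ (h0 s hs)
  have b1 : cnt 0 (FreeGroup.lift ![FreeGroup.of 0, v] w) = S 0 L := by
    rw [e2 0]
    apply sum_eq_S
    · intro s hs h
      rw [h]
      exact cnt_of_zpow _ _
    · intro s hs h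
      have h' : s.1 = 1 := by omega
      rw [h']
      apply cnt_zero
      intro l hl hc
      have := col2 1 s.2 l hl
      rw [hc] at this
      exact absurd this (by decide)
  have b2 : σ 0 L * cnt 0 u ≤ cnt 0 (FreeGroup.lift ![u, FreeGroup.of 2] w) := by
    rw [e1 0]
    apply sum_le_aux
    intro s hs h
    rw [h]
    exact cnt_zpow _ _ _ (h0 s hs)
  rw [hassoc] at b2 a1
  rw [b1, hcu] at b2
  rw [a1, hcv] at a2
  have c0 := σ_le_S 0 L h0
  have c1 := σ_le_S 1 L h0
  constructor
  · by_contra h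
    nlinarith
  · by_contra h
    nlinarith

end Pool.Agent.V8H69.Words
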